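import Pool.Agent.P.MP_ed8104_gt.Space

set_option autoImplicit false

namespace Pool.Agent.Results.MP_ed8104_gt.IffDomEqAlephOne

open Set Filter Cardinal

universe u

/-- The dominating number. -/
noncomputable def dom : Cardinal.{0} :=
  sInf {c | ∃ D : Set (ℕ → ℕ), #D = c ∧ ∀ g : ℕ → ℕ, ∃ f ∈ D, ∀ᶠ n in atTop, g n ≤ f n}

/-- `𝒰` is an open cover of `X`. -/
def IsOpenCover {X : Type u} [TopologicalSpace X] (𝒰 : Set (Set X)) : Prop :=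
  (∀ U ∈ 𝒰, IsOpen U) ∧ ⋃₀ 𝒰 = Set.univ

def WeaklyLindelof (X : Type u) [TopologicalSpace X] : Prop :=
  ∀ 𝒰 : Set (Set X), IsOpenCover 𝒰 → ∃ 𝒱 ⊆ 𝒰, 𝒱.Countable ∧ Dense (⋃₀ 𝒱)

def WeaklyMenger (X : Type u) [TopologicalSpace X] : Prop :=
  ∀ 𝒰 : ℕ → Set (Set X), (∀ n, IsOpenCover (𝒰 n)) →
    ∃ 𝒱 : ℕ → Set (Set X), (∀ n, 𝒱 n ⊆ 𝒰 n ∧ (𝒱 n).Finite) ∧ Dense (⋃ n, ⋃₀ 𝒱 n)

def WeaklyScheepersSakai (X : Type u) [TopologicalSpace X] : Prop :=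
  ∀ 𝒰 : ℕ → Set (Set X), (∀ n, IsOpenCover (𝒰 n)) →
    ∃ 𝒱 : ℕ → Set (Set X), (∀ n, 𝒱 n ⊆ 𝒰 n ∧ (𝒱 n).Finite) ∧
      ∀ 𝓕 : Set (Set X), 𝓕.Finite → (∀ U ∈ 𝓕, IsOpen U ∧ U.Nonempty) →
        {n | ∀ U ∈ 𝓕, (U ∩ ⋃₀ 𝒱 n).Nonempty}.Infinite

def WeaklyScheepersKocinac (X : Type u) [TopologicalSpace X] : Prop :=
  ∀ 𝒰 : ℕ → Set (Set X), (∀ n, IsOpenCover (𝒰 n)) →
    ∃ Y : Set X, Dense Y ∧ ∃ 𝒱 : ℕ → Set (Set X), (∀ n, 𝒱 n ⊆ 𝒰 n ∧ (𝒱 n).Finite) ∧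
      ∀ F ⊆ Y, F.Finite → {n | F ⊆ ⋃₀ 𝒱 n}.Infinite

theorem aleph_one_le_dom : ℵ₁ ≤ dom := by
  have hne : {c | ∃ D : Set (ℕ → ℕ), #D = c ∧
      ∀ g : ℕ → ℕ, ∃ f ∈ D, ∀ᶠ n in atTop, g n ≤ f n}.Nonempty :=
    ⟨_, Set.univ, rfl, fun g => ⟨g, trivial, Eventually.of_forall fun _ => le_rfl⟩⟩
  obtain ⟨D, hD, hdom⟩ := csInf_mem hne
  rw [dom, ← hD]
  by_contra h
  have hc : D.Countable := le_aleph0_iff_set_countable.1 (lt_aleph_one_iff.1 (not_le.1 h))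
  obtain ⟨f₀, hf₀, _⟩ := hdom 0
  obtain ⟨s, hs⟩ := hc.exists_eq_range ⟨f₀, hf₀⟩
  obtain ⟨f, hf, hg⟩ := hdom fun n => (Finset.range (n + 1)).sup (fun i => s i n) + 1
  rw [hs] at hf
  obtain ⟨i, rfl⟩ := hf
  obtain ⟨n, hn, hi⟩ := (hg.and (eventually_ge_atTop i)).exists
  have : s i n ≤ (Finset.range (n + 1)).sup (fun i => s i n) :=
    Finset.le_sup (f := fun i => s i n) (Finset.mem_range.2 (by omega))
  omega

theorem kocinac_of_countable (X : Type u) [TopologicalSpace X] [Countable X] :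
    WeaklyScheepersKocinac X := by
  intro 𝒰 h𝒰
  obtain ⟨f, hf⟩ := exists_injective_nat X
  have : ∀ n (x : X), ∃ U ∈ 𝒰 n, x ∈ U := fun n x => by
    have : x ∈ ⋃₀ 𝒰 n := (h𝒰 n).2 ▸ mem_univ x
    exact this
  choose U hU hx using this
  refine ⟨Set.univ, dense_univ, fun n => U n '' (f ⁻¹' Iic n), fun n => ⟨?_, ?_⟩, ?_⟩
  · rintro _ ⟨x, _, rfl⟩; exact hU n x
  · exact ((finite_Iic n).preimage hf.injOn).image _
  · intro F _ hF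
    obtain ⟨N, hN⟩ := (hF.image f).bddAbove
    refine (Ici_infinite N).mono fun n hn x hxF => ?_
    exact ⟨U n x, ⟨x, le_trans (hN ⟨x, hxF, rfl⟩) hn, rfl⟩, hx n x⟩

theorem sakai_of_kocinac (X : Type u) [TopologicalSpace X] (h : WeaklyScheepersKocinac X) :
    WeaklyScheepersSakai X := by
  intro 𝒰 h𝒰
  obtain ⟨Y, hY, 𝒱, h𝒱, hF⟩ := h 𝒰 h𝒰
  refine ⟨𝒱, h𝒱, fun 𝓕 h𝓕 hU => ?_⟩
  have : ∀ U : 𝓕, ∃ y ∈ Y, y ∈ (U : Set X) := fun U =>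
    hY.exists_mem_open (hU U U.2).1 (hU U U.2).2
  choose y hy hyU using this
  have := h𝓕.to_subtype
  refine (hF (range y) (range_subset_iff.2 hy) (finite_range y)).mono fun n hn U hU => ?_
  exact ⟨y ⟨U, hU⟩, hyU ⟨U, hU⟩, hn (mem_range_self _)⟩

theorem menger_of_sakai (X : Type u) [TopologicalSpace X] (h : WeaklyScheepersSakai X) :
    WeaklyMenger X := by
  intro 𝒰 h𝒰
  obtain ⟨𝒱, h𝒱, hF⟩ := h 𝒰 h𝒰
  refine ⟨𝒱, h𝒱, dense_iff_inter_open.2 fun U hU hne => ?_⟩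
  obtain ⟨n, hn⟩ := (hF {U} (finite_singleton U) (by rintro _ rfl; exact ⟨hU, hne⟩)).nonempty
  exact (hn U rfl).mono (inter_subset_inter_right _ (subset_iUnion (fun n => ⋃₀ 𝒱 n) n))

/-- Each of (a), (b), (c), and (c) for Tychonoff spaces, holds exactly when `𝔡 = ℵ₁`. -/
theorem result : List.TFAE
    [dom = ℵ₁,
     ∀ (X : Type u) [TopologicalSpace X], WeaklyLindelof X → #X < lift.{u} dom →
       WeaklyScheepersKocinac X,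
     ∀ (X : Type u) [TopologicalSpace X], WeaklyLindelof X → #X < lift.{u} dom →
       WeaklyScheepersSakai X,
     ∀ (X : Type u) [TopologicalSpace X], WeaklyLindelof X → #X < lift.{u} dom →
       WeaklyMenger X,
     ∀ (X : Type u) [TopologicalSpace X] [T35Space X], WeaklyLindelof X → #X < lift.{u} dom →
       WeaklyMenger X] := by
  tfae_have 1 → 2 := by
    intro h X _ _ hX
    rw [h, lift_aleph, Ordinal.lift_one, lt_aleph_one_iff, mk_le_aleph0_iff] at hX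
    exact kocinac_of_countable X
  tfae_have 2 → 3 := fun h X _ h1 h2 => sakai_of_kocinac X (h X h1 h2)
  tfae_have 3 → 4 := fun h X _ h1 h2 => menger_of_sakai X (h X h1 h2)
  tfae_have 4 → 5 := fun h X _ _ h1 h2 => h X h1 h2
  tfae_have 5 → 1 := by
    intro h
    by_contra hne
    have hlt : ℵ₁ < dom := lt_of_le_of_ne aleph_one_le_dom (Ne.symm hne)
    let Y : Type u := (ℵ₁ : Cardinal.{u}).out
    have hY : #Y = ℵ₁ := mk_out _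
    have : Uncountable Y := by
      rw [← aleph0_lt_mk_iff, hY]
      exact aleph0_lt_aleph_one
    obtain ⟨e⟩ : Nonempty (Y ↪ ℝ) := by
      rw [← lift_mk_le', hY, mk_real]
      simpa using aleph_one_le_continuum
    let := Pool.Agent.P.MP_ed8104_gt.prTop e
    have := Pool.Agent.P.MP_ed8104_gt.t35 e.injective
    have hM := h (Finset Y)
      (fun 𝒰 h𝒰 => Pool.Agent.P.MP_ed8104_gt.weaklyLindelof e.injective 𝒰 h𝒰.1 h𝒰.2) (by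
        rw [mk_finset_of_infinite, hY]
        simpa using lift_lt.{0, u}.2 hlt)
    obtain ⟨𝒰, h𝒰, hno⟩ := Pool.Agent.P.MP_ed8104_gt.not_weaklyMenger e.injective
    obtain ⟨𝒱, h𝒱, hd⟩ := hM 𝒰 h𝒰
    exact hno 𝒱 h𝒱 hd
  tfae_finish

end Pool.Agent.Results.MP_ed8104_gt.IffDomEqAlephOne
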