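import Mathlib
import Pool.Agent.P.MP_54b694_lc.Defs
import Pool.Agent.P.MP_ed8104_gt.I.Defs
import Pool.Agent.P.MP_ed8104_gt.I.Hold
import Pool.Agent.P.MP_ed8104_gt.I.Fail

namespace Pool.Agent.Results.MP_ed8104_gt.Independent

open Pool.Agent.P.MP_54b694_lc Pool.Agent.P.MP_ed8104_gt.I

/-- Each of (a), (b), (c) is independent of ZFC: there is a model of ZFC in which every weakly
Lindelöf space of size less than `𝔡` has all three properties, and a model of ZFC in which each
of the three statements fails. -/
theorem result :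
    (∃ (M : Type 1) (E : M → M → Prop), IsZFC E ∧ Holds E (WKocinac E) ∧ Holds E (WSakai E) ∧
      Holds E (WMenger E)) ∧
    (∃ (M : Type 1) (E : M → M → Prop), IsZFC E ∧ ¬ Holds E (WKocinac E) ∧ ¬ Holds E (WSakai E) ∧
      ¬ Holds E (WMenger E)) :=
  ⟨exists_hold, exists_fail⟩

end Pool.Agent.Results.MP_ed8104_gt.Independent
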